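import Pool.Agent.V8H94.SZ.Main

set_option autoImplicit false

/-!
# Primitive symplectic varieties with nontrivial nef line bundles that induce no fibration

`latt`, `IsTorusQuotient`, `IsForm`, `IsPrimitiveSymplectic`, `LineBundle`, `LineBundle.pow`,
`LineBundle.IsSection` and `LineBundle.IsTrivial` are defined in `Pool.Agent.W594.SYZ.Defs2`;
`IsHermitian`, `IsChernForm`, `IsNefForm`, `IsPositiveForm`, `IsDegenerateForm`,
`IsLagrangianFibration` and `Induces` in `Pool.Agent.W594.SYZ.TQDefs`.
-/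

namespace Pool.Agent.Results.MP_63735c_ag.TorsionLineBundles

open Pool.Agent.W594.SYZ2

/-- Some power `L ^ m`, `m ≥ 1`, of the line bundle `L` on `X = V / Γ` is isomorphic to `f^* O(1)` for
a nonconstant holomorphic map `f = [s 0 : … : s N]` from `X` to a projective space: the `s i` are
global sections of `L ^ m` without common zeros, and `f` takes different values at some two points.

If `L` induces any fibration `f : X → B` (`L ^ m ≅ f^* A` with `A` ample on the compact variety `B` of
positive dimension), then this holds: embed `B` in a projective space by a power of `A`. -/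
def InducesMap {V : Type*} [NormedAddCommGroup V] [NormedSpace ℂ V]
    {Γ : Subgroup (V ≃ᵃ[ℂ] V)} (L : LineBundle Γ) : Prop :=
  ∃ m : ℕ, 1 ≤ m ∧ ∃ (N : ℕ) (s : Fin (N + 1) → V → ℂ), (∀ i, (L.pow m).IsSection (s i)) ∧
    (∀ v, ∃ i, s i v ≠ 0) ∧ ∃ (i j : Fin (N + 1)) (v w : V), s i v * s j w ≠ s i w * s j v

/-- **Q1 as stated is false in every dimension divisible by four.**  For every `k ≥ 1` there is a
primitive symplectic variety `X = V / Γ` of dimension `4 k`, the quotient of a complex torus by a finite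
group, and a line bundle `L` on `X` such that
* `L` is not isomorphic to `O_X`, and `L ^ 2` is isomorphic to `O_X`;
* `0` is the Chern form of `L`, so `L` is nef and `q_X(L) = 0`;
* no power `L ^ m`, `m ≥ 1`, is the pullback of `O(1)` under a nonconstant holomorphic map from `X` to
  a projective space; so `L` induces no holomorphic Lagrangian fibration `X → B`, whatever the base;
* for the bases `B = ℂ ^ n / Δ` that are torus quotients this says: `L` induces none of the holomorphic
  Lagrangian fibrations `X → B` (`IsLagrangianFibration`, `Induces`). -/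
theorem result (k : ℕ) (hk : 1 ≤ k) :
    ∃ (Γ : Subgroup ((Fin k → Fin 4 → ℂ) ≃ᵃ[ℂ] (Fin k → Fin 4 → ℂ))) (L : LineBundle Γ),
      IsPrimitiveSymplectic Γ ∧
      (¬ L.IsTrivial ∧ (L.pow 2).IsTrivial) ∧
      (∃ H, IsChernForm L H ∧ IsNefForm H ∧ IsDegenerateForm H ∧ ∀ v w, H v w = 0) ∧
      ¬ InducesMap L ∧
      ∀ (n : ℕ) (Δ : Subgroup ((Fin n → ℂ) ≃ᵃ[ℂ] (Fin n → ℂ)))
        (π : (Fin k → Fin 4 → ℂ) →ₗ[ℂ] (Fin n → ℂ)),
        IsLagrangianFibration Γ Δ π → ¬ Induces L Δ π := by
  have i0 : Fin k := ⟨0, hk⟩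
  refine ⟨Pool.Agent.V8H94.SZ.Gam k, Pool.Agent.V8H94.SZ.Lb k, Pool.Agent.V8H94.SZ.primitive k i0,
    ⟨Pool.Agent.V8H94.SZ.not_trivial i0, Pool.Agent.V8H94.SZ.pow_two_trivial k⟩,
    ⟨fun _ _ => 0, Pool.Agent.V8H94.SZ.chern_zero k, fun v => by simp, ?_, fun _ _ => rfl⟩, ?_, ?_⟩
  · refine ⟨fun _ _ => 1, ?_, fun _ => rfl⟩
    intro h
    have := congrFun (congrFun h i0) 0
    simp at this
  · rintro ⟨m, -, N, s, hs, -, i, j, v, w, h⟩
    apply h
    rw [Pool.Agent.V8H94.SZ.section_const (hs i) v w, Pool.Agent.V8H94.SZ.section_const (hs j) w v]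
  · intro n Δ π hπ
    exact Pool.Agent.V8H94.SZ.not_induces (Pool.Agent.V8H94.SZ.torus k) _
      (Pool.Agent.V8H94.SZ.pow_two_trivial k) Δ π hπ

end Pool.Agent.Results.MP_63735c_ag.TorsionLineBundles
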